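import Pool.Agent.H131KL.Final
import Pool.Agent.KLev.Halving3

/-!
# Halving partitions in space: at least `n ^ (2 + exp (-3 √(log log n)))`

`GeneralPosition`, `IsHalving`, `h` and `h3` are defined in `Pool/Agent/KLev/Halving3.lean`
(namespace `KLev.Halving3`).
-/

namespace Pool.Agent.Results.MP_f6af21_co.NearPolynomial

open Filter KLev

/-- All large even `n` satisfy `h3 n ≥ n ^ (2 + exp (-3 √(log log n)))`. -/
theorem result : ∀ᶠ n : ℕ in atTop, Even n →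
    (n : ℝ) ^ (2 + Real.exp (-3 * √(Real.log (Real.log n)))) ≤ (Halving3.h3 n : ℝ) := by
  obtain ⟨a, ha⟩ := (NearPoly.finalP 4).exists_forall_of_atTop
  filter_upwards [eventually_ge_atTop (4 * a + 10)] with n hn heven
  obtain ⟨q, hq⟩ := heven
  obtain ⟨N, E, P, hH, hN, hE⟩ := ha (q / 2) (by omega)
  have h1 := Halving3.h3_ge hH (q / 2) (q - q / 2) (by omega)
  have e : 2 * (q / 2) + 2 * (q - q / 2) = n := by omega
  rw [e] at h1
  have h2 : ((E * (q - q / 2) : ℕ) : ℝ) ≤ Halving3.h3 n := by exact_mod_cast h1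
  refine le_trans ?_ h2
  have h3 : (n : ℝ) ≤ 4 * ((q - q / 2 : ℕ) : ℝ) := by
    have : n ≤ 4 * (q - q / 2) := by omega
    exact_mod_cast this
  have hn8 : (n : ℝ) ≤ 8 * ((q / 2 : ℕ) : ℝ) := by
    have : n ≤ 8 * (q / 2) := by omega
    exact_mod_cast this
  have hn8' : ((q / 2 : ℕ) : ℝ) ≤ n := by
    have : q / 2 ≤ n := by omega
    exact_mod_cast this
  have hn0 : (0 : ℝ) < n := by
    have : 0 < n := by omega
    exact_mod_cast this
  have h4 := hE n hn8' hn8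
  set η := Real.exp (-3 * √(Real.log (Real.log n))) with hη
  have h5 : (n : ℝ) ^ (2 + η) = n * (n : ℝ) ^ (1 + η) := by
    rw [show (2 : ℝ) + η = 1 + (1 + η) by ring, Real.rpow_add hn0, Real.rpow_one]
  rw [h5]
  push_cast
  have h6 : (0:ℝ) ≤ (n : ℝ) ^ (1 + η) := by positivity
  calc (n : ℝ) * (n : ℝ) ^ (1 + η)
      ≤ (4 * ((q - q / 2 : ℕ) : ℝ)) * (n : ℝ) ^ (1 + η) := mul_le_mul_of_nonneg_right h3 h6
    _ = (4 * (n : ℝ) ^ (1 + η)) * ((q - q / 2 : ℕ) : ℝ) := by ring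
    _ ≤ E * ((q - q / 2 : ℕ) : ℝ) := mul_le_mul_of_nonneg_right h4 (Nat.cast_nonneg _)

end Pool.Agent.Results.MP_f6af21_co.NearPolynomial
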